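import Pool.Agent.MP_a38735_al.DFree

set_option autoImplicit false

namespace Pool.Agent.Results.MP_a38735_al.OrderQuotient

open Pool.Agent.MP_a38735_al

/-- Freiheitssatz for `(A ∗ B) / N(r ^ m)`, `m ≥ 2`, for arbitrary groups `A`, `B`, when `r`
survives in some left-orderable quotient of `A ∗ B`. -/
theorem result :
    ∀ (A B : Type) [Group A] [Group B] (r : Monoid.Coprod A B),
      (∀ g : Monoid.Coprod A B, ∀ a : A, r ≠ g * Monoid.Coprod.inl a * g⁻¹) →
      (∀ g : Monoid.Coprod A B, ∀ b : B, r ≠ g * Monoid.Coprod.inr b * g⁻¹) →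
      (∀ s : Monoid.Coprod A B, ∀ k : ℕ, 2 ≤ k → s ^ k ≠ r) →
      (∃ (K : Type) (_ : Group K) (ρ : Monoid.Coprod A B →* K), LeftOrd K ∧ ρ r ≠ 1) →
      ∀ m : ℕ, 2 ≤ m →
        Function.Injective
            ((QuotientGroup.mk' (Subgroup.normalClosure ({r ^ m} : Set (Monoid.Coprod A B)))).comp
              (Monoid.Coprod.inl : A →* Monoid.Coprod A B)) ∧
        Function.Injective
            ((QuotientGroup.mk' (Subgroup.normalClosure ({r ^ m} : Set (Monoid.Coprod A B)))).comp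
              (Monoid.Coprod.inr : B →* Monoid.Coprod A B)) := by
  intro A B _ _ r h1 h2 h3 h4 m hm
  have h5 : ∀ b, ∀ a ∈ HH A B b, ¬ IsConj a r := by
    intro b a ha e
    obtain ⟨u, hu⟩ := isConj_iff.1 e
    cases b
    · obtain ⟨y, rfl⟩ := ha
      exact h2 u y hu.symm
    · obtain ⟨y, rfl⟩ := ha
      exact h1 u y hu.symm
  refine inj_of (fun b a ha hn => ?_)
  obtain ⟨K, _, ρ, hK, hr⟩ := h4
  exact lo_main fp_coprod r h5 h3 hK ρ hr m hm b a ha hn

end Pool.Agent.Results.MP_a38735_al.OrderQuotient
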