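import Pool.Agent.MP_a38735_al.Fin2

set_option autoImplicit false

namespace Pool.Agent.Results.MP_a38735_al.TorsionFree

open Pool.Agent.MP_a38735_al

/-- Freiheitssatz for `(A ∗ B) / N(r ^ m)` for torsion-free groups `A`, `B` and every `m ≥ 2`. -/
theorem result :
    ∀ (A B : Type) [Group A] [Group B],
      (∀ a : A, ∀ n : ℕ, 0 < n → a ^ n = 1 → a = 1) →
      (∀ b : B, ∀ n : ℕ, 0 < n → b ^ n = 1 → b = 1) →
      ∀ r : Monoid.Coprod A B,
        (∀ g : Monoid.Coprod A B, ∀ a : A, r ≠ g * Monoid.Coprod.inl a * g⁻¹) →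
        (∀ g : Monoid.Coprod A B, ∀ b : B, r ≠ g * Monoid.Coprod.inr b * g⁻¹) →
        (∀ s : Monoid.Coprod A B, ∀ k : ℕ, 2 ≤ k → s ^ k ≠ r) →
        ∀ m : ℕ, 2 ≤ m →
          Function.Injective
              ((QuotientGroup.mk' (Subgroup.normalClosure ({r ^ m} : Set (Monoid.Coprod A B)))).comp
                (Monoid.Coprod.inl : A →* Monoid.Coprod A B)) ∧
          Function.Injective
              ((QuotientGroup.mk' (Subgroup.normalClosure ({r ^ m} : Set (Monoid.Coprod A B)))).comp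
                (Monoid.Coprod.inr : B →* Monoid.Coprod A B)) :=
  fun A B _ _ tA tB r h1 h2 h3 m hm => tf_all A B tA tB r h1 h2 h3 m hm

end Pool.Agent.Results.MP_a38735_al.TorsionFree
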