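import Pool.Agent.MP_a38735_al.Words

set_option autoImplicit false

namespace Pool.Agent.Results.MP_a38735_al.Uncorrelated

open Pool.Agent.MP_a38735_al

/-- Freiheitssatz for `(A ∗ B) / N((uv)^m)`, `m ≥ 2`, for arbitrary groups `A`, `B`, when the words
`u`, `u⁻¹` have no overlap with and no occurrence in or around the words `v`, `v⁻¹`. -/
theorem result :
    ∀ (A B : Type) [Group A] [Group B] (u v : List (A × B)), u ≠ [] → v ≠ [] →
      (∀ p ∈ u ++ v, p.1 ≠ 1 ∧ p.2 ≠ 1) →
      (∀ U ∈ [letters u, linv (letters u)], ∀ V ∈ [letters v, linv (letters v)],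
        ¬ U <:+: V ∧ ¬ V <:+: U ∧ ∀ z, z ≠ [] → z <+: U → ¬ z <:+ V) →
      ∀ m : ℕ, 2 ≤ m →
        Function.Injective
            ((QuotientGroup.mk' (Subgroup.normalClosure
              ({(letters (u ++ v)).prod ^ m} : Set (Monoid.Coprod A B)))).comp
              (Monoid.Coprod.inl : A →* Monoid.Coprod A B)) ∧
        Function.Injective
            ((QuotientGroup.mk' (Subgroup.normalClosure
              ({(letters (u ++ v)).prod ^ m} : Set (Monoid.Coprod A B)))).comp
              (Monoid.Coprod.inr : B →* Monoid.Coprod A B)) := by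
  intro A B _ _ u v hu hv hl h m hm
  have a1 := h (letters u) (by simp) (letters v) (by simp)
  have a2 := h (linv (letters u)) (by simp) (letters v) (by simp)
  have a3 := h (letters u) (by simp) (linv (letters v)) (by simp)
  have a4 := h (linv (letters u)) (by simp) (linv (letters v)) (by simp)
  have ne : ∀ z : List (Monoid.Coprod A B), z ≠ [] → linv z ≠ [] := fun z hz e => hz (by
    have := congrArg linv e; simpa using this)
  refine inj_of (fun b a ha hn => unc_main u v hu hv hl ⟨a1.1, a1.2.1, a1.2.2, ?_⟩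
    ⟨a2.1, a2.2.1, a2.2.2, ?_⟩ m hm ha hn)
  · exact fun z h1 h2 h3 => a4.2.2 _ (ne z h1) (linv_suffix h2) (linv_prefix h3)
  · exact fun z h1 h2 h3 => a3.2.2 _ (ne z h1) (by simpa using linv_suffix h2) (linv_prefix h3)

end Pool.Agent.Results.MP_a38735_al.Uncorrelated
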